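import Pool.Agent.W2helper39.BU.Sub

set_option autoImplicit false

/-!
# Balancing unit vectors by blocks: few directions, rational normal curves, quadratic cones

The parity question asks for a signing of norm at most `√(d - 1)` of `n` unit vectors of `ℝ^d`,
`n ≢ d (mod 2)`. We prove one inequality: a family which contains disjoint blocks `T_k` of costs
`p_k` has, for every offset `w`, a signing with
`‖w + ∑ η_i v_i‖² ≤ ‖w‖² + ∑ p_k + ∑ min 1 λ_j`, where the `λ_j` are the eigenvalues of the Gram
matrix of the vectors outside the blocks (with no blocks this sharpens Beck's bound `√d`).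
So the parity question has a positive answer if the right side is at most `d - 1`. With the single
block `T = {1, ..., n}` this covers, for all `n` and `d` with `n ≢ d (mod 2)`,

* all families with at most `d + 2` distinct directions (this contains the case `n = d + 1`),
* all families on the cone over a rational normal curve of degree `d - 1` and all limits of such
  families (for `d = 2` these are all families),
* all families of `ℝ³` annihilated by some nonzero quadratic form (`n` even).

Sketch. The signs of a block are averaged with the weight `h(η)²`, where `h` is a homogeneous form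
of degree `m` in the signs: this costs `|T| - 2 m + 2 ‖a h‖²`, where `a h = ∑ v_i ⊗ ∂_i h`. On a
rational normal curve the form with the coefficients
`∏_{i ∈ A} γ_i⁻¹ ∏_{j ∈ T \ A} [i j]⁻¹`, `|A| = m = (|T| - D + 1) / 2`, satisfies `a h = 0` by
Lagrange interpolation. The spectral bound comes from a point `x = ∑ t_k u_k` of the cube `[-1,1]^n`
in the span of the eigenvectors with `λ_k < 1` with `∑ (1 - λ_k) t_k² ≥ ∑ (1 - λ_k)`.
-/

namespace Pool.Agent.Results.MP_1be6c9_co.RationalNormalCurve

open Finset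

/-- The vectors `v i`, `i ∈ T`, lie on the cone over a linear image of the rational normal curve
of degree `D - 1`. -/
def OnCurve {d n : ℕ} (v : Fin n → EuclideanSpace ℝ (Fin d)) (T : Finset (Fin n)) (D : ℕ) :
    Prop :=
  ∃ (s t γ : Fin n → ℝ) (M : (Fin D → ℝ) →ₗ[ℝ] EuclideanSpace ℝ (Fin d)), ∀ i ∈ T,
    v i = γ i • M (fun k => s i ^ (D - 1 - (k : ℕ)) * t i ^ (k : ℕ))

/-- The family `v` is a limit of families of unit vectors for which the vectors with an index in
`T` lie on such a cone. -/
def NearCurve {d n : ℕ} (v : Fin n → EuclideanSpace ℝ (Fin d)) (T : Finset (Fin n)) (D : ℕ) :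
    Prop :=
  v ∈ closure {u : Fin n → EuclideanSpace ℝ (Fin d) | (∀ i, ‖u i‖ = 1) ∧ OnCurve u T D}

/-- The index set `T` is a block of cost `p`. -/
inductive Block {d n : ℕ} (v : Fin n → EuclideanSpace ℝ (Fin d)) (T : Finset (Fin n)) : ℝ → Prop
  /-- vectors on at most `D + 2` lines of a subspace of dimension `D`, with the parity condition -/
  | lines (W : Submodule ℝ (EuclideanSpace ℝ (Fin d)))
      (u : Fin (Module.finrank ℝ W + 2) → EuclideanSpace ℝ (Fin d))
      (hodd : Odd (T.card + Module.finrank ℝ W)) (hW : ∀ i ∈ T, v i ∈ W)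
      (hu : ∀ i ∈ T, ∃ k, ∃ c : ℝ, v i = c • u k) : Block v T ((Module.finrank ℝ W : ℝ) - 1)
  /-- limits of vectors on the cone over a rational normal curve, with the parity condition -/
  | curve (D : ℕ) (hD : 1 ≤ D) (hodd : Odd (T.card + D)) (h : NearCurve v T D) :
      Block v T ((D : ℝ) - 1)
  /-- an even number of vectors on a quadratic cone of a three-dimensional subspace -/
  | quadric (W : Submodule ℝ (EuclideanSpace ℝ (Fin d))) (h3 : Module.finrank ℝ W = 3)
      (heven : Even T.card) (Q : QuadraticForm ℝ W) (hQ : Q ≠ 0)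
      (hT : ∀ i ∈ T, ∃ h : v i ∈ W, Q ⟨v i, h⟩ = 0) : Block v T 2
  /-- an arbitrary form of degree `m` in the signs, with the coefficients `c A`, `|A| = m` -/
  | form (m : ℕ) (c : Finset (Fin n) → ℝ) (hc : ∀ A : Finset (Fin n), A.card ≠ m → c A = 0)
      (h1 : ∑ A ∈ T.powerset, c A ^ 2 = 1) :
      Block v T ((T.card : ℝ) - 2 * m +
        2 * ∑ B ∈ T.powerset, ‖∑ i ∈ T \ B, c (insert i B) • v i‖ ^ 2)

open Pool.Agent.W2helper39.BU in
lemma bal_block {d n : ℕ} {v : Fin n → EuclideanSpace ℝ (Fin d)} (hv : ∀ i, ‖v i‖ = 1)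
    {T : Finset (Fin n)} {p : ℝ} (h : Block v T p) : Bal v T p := by
  cases h with
  | lines W u hodd hW hu => exact block_lines W u hv hodd hW hu
  | curve D hD hodd h => exact bal_curve hD hodd h
  | quadric W h3 heven Q hQ hT => exact block_quadric W h3 hv heven Q hQ hT
  | form m c hc h1 => exact bal_form hv hc h1

/-- Let `v` be a family of `n` unit vectors of `ℝ^d`, let `T 0, ..., T (r - 1)` be disjoint blocks
of costs `p k`, and let `λ j` be the eigenvalues of the Gram matrix of the vectors outside the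
blocks. Then

1. for every `w` there is a signing with `‖w + ∑ η i • v i‖² ≤ ‖w‖² + ∑ p k + ∑ min 1 (λ j)`;
2. `∑ min 1 (λ j)` is at most the rank of the vectors outside the blocks;
3. if `∑ p k + ∑ min 1 (λ j) ≤ d - 1`, some signed sum of the family has norm at most
   `√(d - 1)`. -/
theorem result {d n : ℕ} (v : Fin n → EuclideanSpace ℝ (Fin d)) (hv : ∀ i, ‖v i‖ = 1)
    {r : ℕ} (T : Fin r → Finset (Fin n)) (hT : ∀ k l, k ≠ l → Disjoint (T k) (T l))
    (p : Fin r → ℝ) (hp : ∀ k, Block v (T k) (p k)) :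
    (∀ w : EuclideanSpace ℝ (Fin d), ∃ η : Fin n → ℝ, (∀ i, η i = 1 ∨ η i = -1) ∧
      ‖w + ∑ i, η i • v i‖ ^ 2 ≤ ‖w‖ ^ 2 + ∑ k, p k +
        ∑ j, min 1 ((Matrix.isHermitian_gram ℝ
          (fun i : {i // ∀ k, i ∉ T k} => v i)).eigenvalues j)) ∧
    ∑ j, min 1 ((Matrix.isHermitian_gram ℝ
        (fun i : {i // ∀ k, i ∉ T k} => v i)).eigenvalues j) ≤
      Module.finrank ℝ (Submodule.span ℝ (Set.range fun i : {i // ∀ k, i ∉ T k} => v i)) ∧
    (∑ k, p k + ∑ j, min 1 ((Matrix.isHermitian_gram ℝ
        (fun i : {i // ∀ k, i ∉ T k} => v i)).eigenvalues j) ≤ (d : ℝ) - 1 →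
      ∃ η : Fin n → ℝ, (∀ i, η i = 1 ∨ η i = -1) ∧
        ‖∑ i, η i • v i‖ ≤ Real.sqrt ((d : ℝ) - 1)) := by
  have main : ∀ w : EuclideanSpace ℝ (Fin d), ∃ η : Fin n → ℝ, (∀ i, η i = 1 ∨ η i = -1) ∧
      ‖w + ∑ i, η i • v i‖ ^ 2 ≤ ‖w‖ ^ 2 + ∑ k, p k +
        ∑ j, min 1 ((Matrix.isHermitian_gram ℝ
          (fun i : {i // ∀ k, i ∉ T k} => v i)).eigenvalues j) := by
    intro w
    have h1 := Pool.Agent.W2helper39.BU.bal_biUnion hT (fun k => bal_block hv (hp k)) univ
    have h2 := Pool.Agent.W2helper39.BU.bal_spec hv (fun i => ∀ k, i ∉ T k)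
    have h3 := h1.union h2 (by
      rw [disjoint_left]
      intro i hi hi2
      rw [mem_biUnion] at hi
      obtain ⟨k, _, hk⟩ := hi
      exact (mem_filter.1 hi2).2 k hk)
    have hun : (univ.biUnion T) ∪ (univ.filter fun i => ∀ k, i ∉ T k) = univ := by
      ext i
      simp only [mem_union, mem_biUnion, mem_univ, true_and, mem_filter, iff_true]
      by_cases h : ∀ k, i ∉ T k
      · exact Or.inr h
      · push Not at h
        exact Or.inl h
    rw [hun] at h3
    obtain ⟨η, hη, h4⟩ := h3 w
    exact ⟨η, hη, by linarith⟩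
  refine ⟨main, Pool.Agent.W2helper39.BU.sum_min_le_rank _, fun h => ?_⟩
  obtain ⟨η, hη, h1⟩ := main 0
  refine ⟨η, hη, Real.le_sqrt_of_sq_le ?_⟩
  simp only [zero_add, norm_zero] at h1
  linarith

end Pool.Agent.Results.MP_1be6c9_co.RationalNormalCurve
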